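import Pool.Agent.R602.Fin

/-!
# Countable pseudocharacter and the zero-set topology in ZF

There is a model of ZF with a Tychonoff space of countable pseudocharacter for which the topology
with the zero-sets as a base is not discrete.
The first half of the theorem is proved outright, the second half gives such a model from every
model of ZF. The definitions are in `Pool.Agent.R602.Defs`.
-/

namespace Pool.Agent.Results.MP_053343_lc.ZTopologyNotDiscrete

open FirstOrder FirstOrder.Language
open Pool.Agent.Helper672.Plain (LSet El)
open Pool.Agent.H635Amen (ZF IsReals)
open Pool.Agent.H310Top (IsTopology)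
open Pool.Agent.R602St

universe u

/-- The model `N` contains a Tychonoff space `x` of countable pseudocharacter such that the
topology `t'` with the zero-sets of `x` as a base is not discrete; `r` is the field of the real
numbers of the model. -/
def Counterexample (N : Type u) [LSet.Structure N] : Prop :=
  ∃ (r : N) (_ : Field (El r)) (_ : LinearOrder (El r)) (_ : IsStrictOrderedRing (El r)),
    IsReals r ∧ ∃ t x : N, IsTopology t x ∧ IsTychonoff r t x ∧
      HasCountablePseudocharacter t x ∧ ∃ t', IsZTop r t' t x ∧ ¬ IsDiscrete t' x

theorem result :
    (∃ (N : Type 1) (_ : LSet.Structure N), ZF N ∧ Counterexample N) ∧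
    ∀ (M : Type u) [LSet.Structure M], ZF M →
      ∃ (N : Type u) (_ : LSet.Structure N), ZF N ∧ Counterexample N :=
  ⟨Pool.Agent.R602.exists_model_zs (fun N _ => Counterexample N) fun _ _ _ _ _ S =>
    Pool.Agent.R602.fin7 S,
   fun M _ h => Pool.Agent.R602.exists_model (fun N _ => Counterexample N) (fun _ _ _ _ _ S =>
    Pool.Agent.R602.fin7 S) M h⟩

end Pool.Agent.Results.MP_053343_lc.ZTopologyNotDiscrete
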